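import Mathlib

set_option autoImplicit false

/-
Greedy construction of separated dense sets along a dense sequence, and the finite-dimensional case.
-/

namespace Pool.Agent.P.MP_ef1120_an

open Set Filter Topology

variable {X : Type*} [NormedAddCommGroup X]

/-- `P` is 2-separated. -/
def Sep (P : Set X) : Prop := ∀ p ∈ P, ∀ q ∈ P, p ≠ q → 2 ≤ ‖p - q‖

/-- Some 2-separated set is `r`-dense for an `r` with `0 < r < 2`. -/
def Goal (X : Type*) [NormedAddCommGroup X] : Prop :=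
  ∃ r : ℝ, 0 < r ∧ r < 2 ∧ ∃ P : Set X, Sep P ∧ ∀ x, ∃ p ∈ P, ‖x - p‖ ≤ r

theorem exists_seq_step {σ : Type*} {Inv : σ → Prop} {R : ℕ → σ → σ → Prop} (s0 : σ) (h0 : Inv s0)
    (hstep : ∀ n s, Inv s → ∃ s', Inv s' ∧ R n s s') :
    ∃ f : ℕ → σ, f 0 = s0 ∧ ∀ n, Inv (f n) ∧ R n (f n) (f (n + 1)) := by
  choose nx h1 h2 using hstep
  let g : ℕ → {s // Inv s} := fun n =>
    Nat.rec ⟨s0, h0⟩ (fun n s => ⟨nx n s.1 s.2, h1 n s.1 s.2⟩) n
  exact ⟨fun n => (g n).1, rfl, fun n => ⟨(g n).2, h2 n (g n).1 (g n).2⟩⟩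

theorem greedy [TopologicalSpace.SeparableSpace X] {σ : Type*} (pts : σ → Set X) (Inv : σ → Prop)
    (s0 : σ) (h0 : Inv s0) (hsep : ∀ s, Inv s → Sep (pts s)) {r : ℝ} (hr0 : 0 < r) (hr : r < 2)
    (hstep : ∀ s, Inv s → ∀ x, (∀ p ∈ pts s, r < ‖x - p‖) →
      ∃ s', Inv s' ∧ pts s ⊆ pts s' ∧ ∃ p ∈ pts s', ‖x - p‖ ≤ r) : Goal X := by
  obtain ⟨f, -, hf⟩ := exists_seq_step (Inv := Inv)
    (R := fun n s s' => pts s ⊆ pts s' ∧ ∃ p ∈ pts s', ‖TopologicalSpace.denseSeq X n - p‖ ≤ r)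
    s0 h0 (by
      intro n s hs
      by_cases h : ∀ p ∈ pts s, r < ‖TopologicalSpace.denseSeq X n - p‖
      · exact hstep s hs _ h
      · push Not at h
        exact ⟨s, hs, subset_rfl, h⟩)
  have hmono : Monotone fun n => pts (f n) := monotone_nat_of_le_succ fun n => (hf n).2.1
  refine ⟨(r + 2) / 2, by linarith, by linarith, ⋃ n, pts (f n), ?_, ?_⟩
  · intro p hp q hq hpq
    obtain ⟨m, hm⟩ := mem_iUnion.mp hp
    obtain ⟨n, hn⟩ := mem_iUnion.mp hq
    exact hsep _ (hf (max m n)).1 p (hmono (le_max_left m n) hm) q (hmono (le_max_right m n) hn) hpq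
  · intro x
    obtain ⟨n, hn⟩ := (TopologicalSpace.denseRange_denseSeq X).exists_dist_lt x
      (show 0 < (2 - r) / 2 by linarith)
    obtain ⟨p, hp, hxp⟩ := (hf n).2.2
    refine ⟨p, mem_iUnion.mpr ⟨n + 1, hp⟩, ?_⟩
    rw [dist_eq_norm] at hn
    have := norm_sub_le_norm_sub_add_norm_sub x (TopologicalSpace.denseSeq X n) p
    linarith

/-- A compact set that meets every coset of a 2-separated subgroup gives the goal. -/
theorem goal_of_lattice (L : AddSubgroup X) (hL : ∀ l ∈ L, l ≠ 0 → 2 ≤ ‖l‖) (K : Set X)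
    (hK : IsCompact K) (hcov : ∀ x, ∃ l ∈ L, x - l ∈ K) : Goal X := by
  obtain ⟨P, -, hP⟩ := zorn_subset_nonempty {P : Set X | Sep P ∧ ∀ p ∈ P, ∀ l ∈ L, p + l ∈ P}
    (by
      intro c hc hchain _
      refine ⟨⋃₀ c, ⟨?_, ?_⟩, fun s hs => subset_sUnion_of_mem hs⟩
      · rintro p ⟨s, hs, hp⟩ q ⟨t, ht, hq⟩ hpq
        rcases hchain.total hs ht with h | h
        · exact (hc ht).1 p (h hp) q hq hpq
        · exact (hc hs).1 p hp q (h hq) hpq
      · rintro p ⟨s, hs, hp⟩ l hl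
        exact ⟨s, hs, (hc hs).2 p hp l hl⟩) ∅ ⟨by simp [Sep], by simp⟩
  have hlt : ∀ x, ∃ p ∈ P, ‖x - p‖ < 2 := by
    intro x
    by_contra hx
    push Not at hx
    have hmem : P ∪ {y | y - x ∈ L} ∈ {P : Set X | Sep P ∧ ∀ p ∈ P, ∀ l ∈ L, p + l ∈ P} := by
      have key : ∀ p ∈ P, ∀ q, q - x ∈ L → 2 ≤ ‖q - p‖ := by
        intro p hp q hq
        have := hx _ (hP.prop.2 p hp _ (L.neg_mem hq))
        have e : x - (p + -(q - x)) = q - p + (x - x) - (x - x) := by abel
        have e2 : x - (p + -(q - x)) = q - p := by abel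
        rwa [e2] at this
      constructor
      · rintro p (hp | hp) q (hq | hq) hpq
        · exact hP.prop.1 p hp q hq hpq
        · rw [norm_sub_rev]; exact key p hp q hq
        · exact key q hq p hp
        · refine hL _ ?_ (sub_ne_zero.mpr hpq)
          have := L.sub_mem hp hq
          simpa using this
      · rintro p (hp | hp) l hl
        · exact Or.inl (hP.prop.2 p hp l hl)
        · right
          have := L.add_mem hp hl
          show p + l - x ∈ L
          rwa [show p + l - x = p - x + l by abel]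
    have hxP : x ∈ P := hP.eq_of_subset hmem subset_union_left ▸ (Or.inr (by simp))
    have := hx x hxP
    simp at this
    linarith
  obtain ⟨n, hn⟩ := hK.elim_directed_cover
    (fun n : ℕ => ⋃ p ∈ P, Metric.ball p (2 - 1 / ((n : ℝ) + 1)))
    (fun n => isOpen_biUnion fun p _ => Metric.isOpen_ball)
    (by
      intro x _
      obtain ⟨p, hp, hxp⟩ := hlt x
      obtain ⟨n, hn⟩ := exists_nat_one_div_lt (show 0 < 2 - ‖x - p‖ by linarith)
      refine mem_iUnion.mpr ⟨n, mem_biUnion hp ?_⟩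
      rw [Metric.mem_ball, dist_eq_norm]
      linarith)
    (by
      refine Monotone.directed_le fun m n hmn => iUnion₂_mono fun p _ => Metric.ball_subset_ball ?_
      have : (m : ℝ) ≤ n := by exact_mod_cast hmn
      have : 1 / ((n : ℝ) + 1) ≤ 1 / ((m : ℝ) + 1) :=
        one_div_le_one_div_of_le (by positivity) (by linarith)
      linarith)
  have h1 : 0 < 1 / ((n : ℝ) + 1) := by positivity
  have h2 : 1 / ((n : ℝ) + 1) ≤ 1 := by
    rw [div_le_one (by positivity)]
    have : (0 : ℝ) ≤ n := by positivity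
    linarith
  refine ⟨2 - 1 / ((n : ℝ) + 1), by linarith, by linarith, P, hP.prop.1, fun x => ?_⟩
  obtain ⟨l, hl, hx⟩ := hcov x
  obtain ⟨p, hp, hxp⟩ := mem_iUnion₂.mp (hn hx)
  refine ⟨p + l, hP.prop.2 p hp l hl, ?_⟩
  rw [Metric.mem_ball, dist_eq_norm] at hxp
  rw [show x - (p + l) = x - l - p by abel]
  exact hxp.le

theorem goal_finiteDim [NormedSpace ℝ X] [FiniteDimensional ℝ X] : Goal X := by
  classical
  let b := Module.finBasis ℝ X
  let c : Fin (Module.finrank ℝ X) → X →L[ℝ] ℝ := fun i => (b.coord i).toContinuousLinearMap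
  let t : ℝ := 2 * (∑ i, ‖c i‖ + 1)
  have hs : 0 ≤ ∑ i, ‖c i‖ := Finset.sum_nonneg fun i _ => norm_nonneg _
  have ht : 0 < t := by positivity
  let L : AddSubgroup X :=
    { carrier := {x | ∀ i, ∃ n : ℤ, b.repr x i = t * n}
      add_mem' := by
        intro x y hx hy i
        obtain ⟨m, hm⟩ := hx i
        obtain ⟨n, hn⟩ := hy i
        exact ⟨m + n, by simp [hm, hn, mul_add]⟩
      zero_mem' := fun i => ⟨0, by simp⟩
      neg_mem' := by
        intro x hx i
        obtain ⟨m, hm⟩ := hx i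
        exact ⟨-m, by simp [hm]⟩ }
  refine goal_of_lattice L ?_ (Metric.closedBall 0 (∑ i, t * ‖b i‖)) (isCompact_closedBall _ _) ?_
  · intro l hl hl0
    have : ∃ i, b.repr l i ≠ 0 := by
      by_contra h
      push Not at h
      exact hl0 (b.repr.map_eq_zero_iff.mp (Finsupp.ext h))
    obtain ⟨i, hi⟩ := this
    obtain ⟨n, hn⟩ := hl i
    have hn0 : n ≠ 0 := by rintro rfl; simp [hn] at hi
    have h1 : (1 : ℝ) ≤ |(n : ℝ)| := by exact_mod_cast Int.one_le_abs hn0
    have h2 : |b.repr l i| ≤ ‖c i‖ * ‖l‖ := (c i).le_opNorm l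
    have h3 : ‖c i‖ ≤ ∑ i, ‖c i‖ :=
      Finset.single_le_sum (f := fun i => ‖c i‖) (fun i _ => norm_nonneg _) (Finset.mem_univ i)
    rw [hn, abs_mul, abs_of_pos ht] at h2
    have h4 : t ≤ (∑ i, ‖c i‖ + 1) * ‖l‖ := by
      have := norm_nonneg l
      nlinarith
    by_contra h
    push Not at h
    have : (∑ i, ‖c i‖ + 1) * ‖l‖ < (∑ i, ‖c i‖ + 1) * 2 := mul_lt_mul_of_pos_left h (by linarith)
    simp only [t] at h4
    linarith
  · intro x
    refine ⟨∑ i, (t * (⌊b.repr x i / t⌋ : ℤ)) • b i, ?_, ?_⟩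
    · intro i
      refine ⟨⌊b.repr x i / t⌋, ?_⟩
      rw [← b.equivFun_symm_apply, ← b.equivFun_apply, LinearEquiv.apply_symm_apply]
    · rw [mem_closedBall_zero_iff]
      conv_lhs => rw [← b.sum_repr x]
      simp only [b.repr_sum_self]
      rw [← Finset.sum_sub_distrib]
      refine norm_sum_le_of_le _ fun i _ => ?_
      rw [← sub_smul, norm_smul]
      refine mul_le_mul_of_nonneg_right ?_ (norm_nonneg _)
      have h1 := Int.floor_le (b.repr x i / t)
      have h2 := Int.lt_floor_add_one (b.repr x i / t)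
      rw [le_div_iff₀ ht] at h1
      rw [div_lt_iff₀ ht] at h2
      rw [Real.norm_eq_abs, abs_le]
      constructor <;> linarith

end Pool.Agent.P.MP_ef1120_an
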