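import Mathlib
import Pool.Agent.P.MP_ef1120_an.Greedy

set_option autoImplicit false

/-
Symmetric ultrafilters near the unit sphere, and the greedy strategy that adds a fresh vector.
-/

namespace Pool.Agent.P.MP_ef1120_an

open Set Filter Topology

variable {X : Type*} [NormedAddCommGroup X]

/-- Every member of `U` contains two almost antipodal points. -/
def Sym (U : Ultrafilter X) : Prop :=
  ∀ p : X → Prop, (∀ᶠ x in (U : Filter X), p x) → ∀ ε : ℝ, 0 < ε → ∃ x y, p x ∧ p y ∧ ‖x + y‖ < ε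

/-- `U` concentrates near the unit sphere. -/
def Unit (U : Ultrafilter X) : Prop :=
  ∀ ε : ℝ, 0 < ε → ∀ᶠ x in (U : Filter X), 1 - ε < ‖x‖ ∧ ‖x‖ < 1 + ε

variable [NormedSpace ℝ X]

theorem Sym.mono {U : Ultrafilter X} (hU : Sym U) {c : X} {a s : ℝ} (hs : 0 < s) (h : a < ‖c‖) :
    ∀ᶠ w in (U : Filter X), a ≤ ‖c + s • w‖ := by
  by_contra hc
  rw [← Ultrafilter.eventually_not] at hc
  obtain ⟨x, y, hx, hy, hxy⟩ := hU _ hc ((‖c‖ - a) / s) (div_pos (by linarith) hs)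
  push Not at hx hy
  rw [lt_div_iff₀ hs] at hxy
  have e : (2 : ℝ) • c = (c + s • x) + (c + s • y) - s • (x + y) := by module
  have h1 : ‖(2 : ℝ) • c‖ ≤ ‖c + s • x‖ + ‖c + s • y‖ + ‖s • (x + y)‖ := by
    rw [e]
    exact (norm_sub_le _ _).trans (add_le_add_left (norm_add_le _ _) _)
  rw [norm_smul, norm_smul, Real.norm_of_nonneg hs.le, Real.norm_of_nonneg (by norm_num)] at h1
  nlinarith

/-- Radial move away from a point. -/
theorem radial (x p : X) {ρ : ℝ} (hρ : 0 ≤ ρ) (h : 0 < ‖x - p‖) :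
    ∃ x' : X, ‖x' - x‖ ≤ ρ ∧ ∃ t : ℝ, t * ‖x - p‖ = ‖x - p‖ + ρ ∧ 0 < t ∧ x' - p = t • (x - p) := by
  refine ⟨x + (ρ / ‖x - p‖) • (x - p), ?_, 1 + ρ / ‖x - p‖, ?_, by positivity, by module⟩
  · rw [add_sub_cancel_left, norm_smul, Real.norm_of_nonneg (by positivity),
      div_mul_cancel₀ _ h.ne']
  · field_simp

theorem stratA [TopologicalSpace.SeparableSpace X] {U : Ultrafilter X} (hS : Sym U) (hU : Unit U)
    {δ : ℝ} (hδ : 0 < δ) (hδ1 : δ ≤ 1)
    (hA : ∀ᶠ w in (U : Filter X), ∀ᶠ w' in (U : Filter X), 1 + δ ≤ ‖(1 / 2 : ℝ) • w + w'‖) : Goal X := by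
  classical
  obtain ⟨η, hη⟩ : ∃ η : ℝ, η = δ / 10 := ⟨_, rfl⟩
  have hη0 : 0 < η := by rw [hη]; positivity
  have hη1 : η ≤ 1 / 10 := by rw [hη]; linarith
  obtain ⟨s, hs⟩ : ∃ s : ℝ, s = 2 - 3 * η := ⟨_, rfl⟩
  have hs0 : 0 < s := by rw [hs]; linarith
  let Good : X → Prop := fun y => ∀ᶠ w in (U : Filter X), 4 + 3 * η ≤ ‖y + (2 * s) • w‖
  refine greedy (σ := Finset X) (fun P => (P : Set X))
    (fun P => Sep (P : Set X) ∧ ∀ p ∈ P, ∀ q ∈ P, p ≠ q → Good (p - q) ∨ Good (q - p)) ∅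
    ⟨by simp [Sep], by simp⟩ (fun _ h => h.1) (r := 2 - η) (by linarith) (by linarith) ?_
  rintro P ⟨hsep, hgood⟩ x hx
  have one_bad : ∀ p q : X, Good (q - p) → (∀ᶠ w in (U : Filter X), ‖x - p + s • w‖ ≤ 2 + η) →
      (∀ᶠ w in (U : Filter X), ‖x - q + s • w‖ ≤ 2 + η) → False := by
    intro p q hg hp hq
    obtain ⟨w, w', ⟨h1, -, h3⟩, ⟨-, h2, -⟩, hw⟩ := hS _ (hp.and (hq.and hg)) (η / s)
      (div_pos hη0 hs0)
    rw [lt_div_iff₀ hs0] at hw
    have e : q - p + (2 * s) • w = (x - p + s • w) - (x - q + s • w') + s • (w + w') := by module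
    have h4 : ‖q - p + (2 * s) • w‖ ≤ ‖x - p + s • w‖ + ‖x - q + s • w'‖ + ‖s • (w + w')‖ := by
      rw [e]
      exact (norm_add_le _ _).trans (add_le_add_left (norm_sub_le _ _) _)
    rw [norm_smul, Real.norm_of_nonneg hs0.le] at h4
    nlinarith
  have notbad : ∀ x' p : X, ‖x' - x‖ ≤ η → ¬ (∀ᶠ w in (U : Filter X), ‖x - p + s • w‖ ≤ 2 + η) →
      ∀ᶠ w in (U : Filter X), 2 ≤ ‖x' - p + s • w‖ := by
    intro x' p hx' hp
    rw [← Ultrafilter.eventually_not] at hp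
    filter_upwards [hp] with w hw
    have e : x - p + s • w = (x' - p + s • w) - (x' - x) := by abel
    have := norm_sub_le (x' - p + s • w) (x' - x)
    rw [← e] at this
    linarith
  have hx' : ∃ x' : X, ‖x' - x‖ ≤ η ∧ ∀ p ∈ P, ∀ᶠ w in (U : Filter X), 2 ≤ ‖x' - p + s • w‖ := by
    by_cases hb : ∃ p ∈ P, ∀ᶠ w in (U : Filter X), ‖x - p + s • w‖ ≤ 2 + η
    · obtain ⟨p, hp, hpb⟩ := hb
      have hxp := hx p hp
      obtain ⟨x', h1, t, ht, ht0, h2⟩ := radial x p hη0.le (by linarith)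
      refine ⟨x', h1, fun q hq => ?_⟩
      by_cases hqp : q = p
      · subst hqp
        refine hS.mono hs0 ?_
        rw [h2, norm_smul, Real.norm_of_nonneg ht0.le, ht]
        linarith
      · refine notbad x' q h1 fun hqb => ?_
        rcases hgood q hq p hp hqp with h | h
        · exact one_bad p q h hpb hqb
        · exact one_bad q p h hqb hpb
    · exact ⟨x, by simp [hη0.le], fun p hp => notbad x p (by simp [hη0.le])
        (fun h => hb ⟨p, hp, h⟩)⟩
  obtain ⟨x', hx'1, hx'2⟩ := hx'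
  have newgood : ∀ c : X, ∀ᶠ w in (U : Filter X), Good (c + s • w) := by
    intro c
    by_contra hc
    rw [← Ultrafilter.eventually_not] at hc
    obtain ⟨w1, w2, ⟨h1, hA1⟩, ⟨h2, -⟩, hw⟩ := hS _ (hc.and hA) η hη0
    simp only [Good, ← Ultrafilter.eventually_not, not_le] at h1 h2
    obtain ⟨v1, v2, ⟨k1, -, k3⟩, ⟨-, k2, -⟩, hv⟩ := hS _ (h1.and (h2.and hA1)) η hη0
    have e : (4 * s) • ((1 / 2 : ℝ) • w1 + v1) = (c + s • w1 + (2 * s) • v1) -
        (c + s • w2 + (2 * s) • v2) + s • (w1 + w2) + (2 * s) • (v1 + v2) := by module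
    have h4 : ‖(4 * s) • ((1 / 2 : ℝ) • w1 + v1)‖ ≤ ‖c + s • w1 + (2 * s) • v1‖ +
        ‖c + s • w2 + (2 * s) • v2‖ + ‖s • (w1 + w2)‖ + ‖(2 * s) • (v1 + v2)‖ := by
      rw [e]
      exact (norm_add_le _ _).trans (add_le_add_left ((norm_add_le _ _).trans
        (add_le_add_left (norm_sub_le _ _) _)) _)
    rw [norm_smul, norm_smul, norm_smul, Real.norm_of_nonneg hs0.le,
      Real.norm_of_nonneg (by positivity), Real.norm_of_nonneg (by positivity)] at h4
    have h5 : 4 * s * (1 + δ) ≤ 4 * s * ‖(1 / 2 : ℝ) • w1 + v1‖ :=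
      mul_le_mul_of_nonneg_left k3 (by positivity)
    have h6 : s * ‖w1 + w2‖ ≤ s * η := mul_le_mul_of_nonneg_left hw.le hs0.le
    have h7 : 2 * s * ‖v1 + v2‖ ≤ 2 * s * η := mul_le_mul_of_nonneg_left hv.le (by positivity)
    have hδη : δ = 10 * η := by rw [hη]; ring
    rw [hδη] at h5
    subst hs
    nlinarith
  have all1 : ∀ᶠ w in (U : Filter X), ∀ p ∈ P, 2 ≤ ‖x' - p + s • w‖ := (eventually_all_finset P).mpr hx'2
  have all2 : ∀ᶠ w in (U : Filter X), ∀ p ∈ P, Good (x' - p + s • w) :=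
    (eventually_all_finset P).mpr fun p _ => newgood _
  obtain ⟨w, h1, h2, -, h3⟩ := (all1.and (all2.and (hU (η / 2) (by positivity)))).exists
  have e : ∀ p : X, x' + s • w - p = x' - p + s • w := fun p => by abel
  refine ⟨insert (x' + s • w) P, ⟨?_, ?_⟩, by simp, x' + s • w, by simp, ?_⟩
  · intro p hp q hq hpq
    simp only [Finset.coe_insert, mem_insert_iff, Finset.mem_coe] at hp hq
    rcases hp with rfl | hp <;> rcases hq with rfl | hq
    · exact absurd rfl hpq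
    · rw [e]; exact h1 q hq
    · rw [norm_sub_rev, e]; exact h1 p hp
    · exact hsep p hp q hq hpq
  · intro p hp q hq hpq
    simp only [Finset.mem_insert] at hp hq
    rcases hp with rfl | hp <;> rcases hq with rfl | hq
    · exact absurd rfl hpq
    · left; rw [e]; exact h2 q hq
    · right; rw [e]; exact h2 p hp
    · exact hgood p hp q hq hpq
  · rw [norm_sub_rev, show x' + s • w - x = (x' - x) + s • w by abel]
    refine (norm_add_le _ _).trans ?_
    rw [norm_smul, Real.norm_of_nonneg hs0.le]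
    have : s * ‖w‖ ≤ s * (1 + η / 2) := mul_le_mul_of_nonneg_left h3.le hs0.le
    subst hs
    nlinarith

end Pool.Agent.P.MP_ef1120_an
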