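import Mathlib
import Pool.Agent.P.MP_ef1120_an.StratA

set_option autoImplicit false

/-
The greedy strategy in a space with an almost isometric, almost complemented copy of the unit vector
basis of the space of null sequences.
-/

namespace Pool.Agent.P.MP_ef1120_an

open Set Filter Topology

variable {X : Type*} [NormedAddCommGroup X] [NormedSpace ℝ X]

/-- All combinations of the `e k` with coefficients in `[-1, 1]` have norm at most `C`. -/
def Upper (e : ℕ → X) (C : ℝ) : Prop :=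
  ∀ (F : Finset ℕ) (c : ℕ → ℝ), (∀ k, |c k| ≤ 1) → ‖∑ k ∈ F, c k • e k‖ ≤ C

theorem abs_apply_le {f : X →L[ℝ] ℝ} (hf : ‖f‖ ≤ 1) (x : X) : |f x| ≤ ‖x‖ := by
  have := f.le_opNorm x
  rw [Real.norm_eq_abs] at this
  nlinarith [norm_nonneg x]

theorem Upper.coord {e : ℕ → X} (he : Upper e 1) {g : X →L[ℝ] ℝ} (hg : ‖g‖ ≤ 1) {F : Finset ℕ}
    {c : ℕ → ℝ} (hc : ∀ k, |c k| ≤ 1) {k0 : ℕ} (hk : k0 ∈ F) (h1 : c k0 = 1 ∨ c k0 = -1) :
    2 * g (e k0) - 1 ≤ c k0 * g (∑ k ∈ F, c k • e k) := by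
  classical
  have h2 := he F (fun k => if k = k0 then c k else -c k) (by
    intro k; split_ifs
    · exact hc k
    · rw [abs_neg]; exact hc k)
  have e1 : ∑ k ∈ F, c k • e k + ∑ k ∈ F, (if k = k0 then c k else -c k) • e k =
      (2 * c k0) • e k0 := by
    rw [← Finset.sum_add_distrib, Finset.sum_eq_single_of_mem k0 hk]
    · simp only [if_true]; module
    · intro b _ hb
      simp [hb]
  have e2 := congrArg g e1
  rw [map_add, map_smul, smul_eq_mul] at e2
  have h3 := (abs_apply_le hg (∑ k ∈ F, (if k = k0 then c k else -c k) • e k)).trans h2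
  rw [abs_le] at h3
  rcases h1 with h1 | h1 <;> rw [h1] at e2 ⊢ <;> linarith [h3.1, h3.2]

theorem Upper.sum_abs {e : ℕ → X} (he : Upper e 1) {f : X →L[ℝ] ℝ} (hf : ‖f‖ ≤ 1)
    (H : Finset ℕ) : ∑ k ∈ H, |f (e k)| ≤ 1 := by
  have h2 := he H (fun k => if 0 ≤ f (e k) then 1 else -1) (by intro k; split_ifs <;> simp)
  have h3 := (abs_apply_le hf _).trans h2
  refine le_trans (le_of_eq ?_) ((le_abs_self _).trans h3)
  rw [map_sum]
  refine Finset.sum_congr rfl fun k _ => ?_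
  rw [map_smul, smul_eq_mul]
  split_ifs with h
  · rw [abs_of_nonneg h, one_mul]
  · rw [abs_of_neg (not_le.mp h)]; ring

theorem Upper.pigeon {e : ℕ → X} (he : Upper e 1) {f : X →L[ℝ] ℝ} (hf : ‖f‖ ≤ 1)
    {H : Finset ℕ} {n : ℕ} (hn : 0 < n) (hH : n ≤ H.card) : ∃ k ∈ H, |f (e k)| ≤ 1 / (n : ℝ) := by
  refine Finset.exists_le_of_sum_le (Finset.card_pos.mp (by omega)) ((he.sum_abs hf H).trans ?_)
  rw [Finset.sum_const, nsmul_eq_mul, mul_one_div, le_div_iff₀ (by positivity), one_mul]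
  exact_mod_cast hH

theorem Upper.tendsto {e : ℕ → X} (he : Upper e 1) {f : X →L[ℝ] ℝ} (hf : ‖f‖ ≤ 1) :
    Tendsto (fun k => |f (e k)|) atTop (𝓝 0) :=
  (summable_of_sum_le (fun _ => abs_nonneg _) (he.sum_abs hf)).tendsto_atTop_zero

/-- Invariant of the construction. -/
def InvB (g : ℕ → X →L[ℝ] ℝ) (s : ℕ × (ℕ → X) × (ℕ → Finset ℕ)) : Prop :=
  (∀ j < s.1, (s.2.2 j).card = 2 ^ (j + 6)) ∧
    ∀ j < s.1, ∀ i < j, Disjoint (s.2.2 i) (s.2.2 j) ∧ 2 ≤ ‖s.2.1 j - s.2.1 i‖ ∧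
      ∀ k ∈ s.2.2 j, 3 / 2 ≤ g k (s.2.1 j - s.2.1 i)

theorem stepB {e : ℕ → X} {g : ℕ → X →L[ℝ] ℝ} (he : Upper e 1) (hg : ∀ k, ‖g k‖ ≤ 1)
    (hge : ∀ k, 99 / 100 ≤ g k (e k)) (hnull : ∀ x, Tendsto (fun k => g k x) atTop (𝓝 0))
    {m : ℕ} {v : ℕ → X} {K : ℕ → Finset ℕ} (hI : InvB g (m, v, K)) {x : X}
    (hx : ∀ j < m, 19 / 10 < ‖x - v j‖) :
    ∃ (u : X) (Kn : Finset ℕ), ‖x - u‖ ≤ 19 / 10 ∧ Kn.card = 2 ^ (m + 6) ∧
      ∀ i < m, Disjoint (K i) Kn ∧ 2 ≤ ‖u - v i‖ ∧ ∀ k ∈ Kn, 3 / 2 ≤ g k (u - v i) := by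
  classical
  obtain ⟨hcard, hpair⟩ := hI
  simp only at hcard hpair
  let near : ℕ → Prop := fun j =>
    2 ^ (j + 5) ≤ ((K j).filter fun k => |g k (x - v j)| < 3 / 4).card
  have h1 : ∃ (x' : X) (f : X →L[ℝ] ℝ), ‖x' - x‖ ≤ 3 / 10 ∧ ‖f‖ ≤ 1 ∧
      ∀ j < m, near j → (∀ j' < m, j < j' → ¬ near j') → 22 / 10 ≤ f (x' - v j) := by
    by_cases hn : ((Finset.range m).filter near).Nonempty
    · obtain ⟨J, hJ, hmax⟩ := Finset.exists_max_image _ id hn
      rw [Finset.mem_filter, Finset.mem_range] at hJ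
      have hxJ := hx J hJ.1
      obtain ⟨x', h1, t, ht, -, h2⟩ := radial x (v J) (ρ := 3 / 10) (by norm_num) (by linarith)
      obtain ⟨f, hf1, hf2⟩ := exists_dual_vector'' ℝ (x - v J)
      refine ⟨x', f, h1, hf1, fun j hj hnj hlast => ?_⟩
      have hjJ : j ≤ J := hmax j (Finset.mem_filter.mpr ⟨Finset.mem_range.mpr hj, hnj⟩)
      have : j = J := by
        by_contra hne
        exact hlast J hJ.1 (lt_of_le_of_ne hjJ hne) hJ.2
      subst this
      rw [h2, map_smul, smul_eq_mul, hf2]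
      simp only [RCLike.ofReal_real_eq_id, id_eq]
      linarith
    · refine ⟨x, 0, by simp; norm_num, by simp, fun j hj hnj _ => ?_⟩
      exact absurd ⟨j, Finset.mem_filter.mpr ⟨Finset.mem_range.mpr hj, hnj⟩⟩ hn
  obtain ⟨x', f, hx', hf, hJ⟩ := h1
  have h2 : ∀ j, ∃ (k : ℕ) (σ : ℝ), j < m → k ∈ K j ∧ (σ = 1 ∨ σ = -1) ∧
      |f (e k)| ≤ 1 / ((2 ^ (j + 5) : ℕ) : ℝ) ∧
      (near j → σ = 1 ∧ |g k (x - v j)| < 3 / 4) ∧ (¬ near j → 3 / 4 ≤ σ * g k (x - v j)) := by
    intro j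
    by_cases hj : j < m
    swap
    · exact ⟨0, 0, fun h => absurd h hj⟩
    by_cases hn : near j
    · obtain ⟨k, hk, hk2⟩ := he.pigeon hf (by positivity) hn
      rw [Finset.mem_filter] at hk
      exact ⟨k, 1, fun _ => ⟨hk.1, Or.inl rfl, hk2, fun _ => ⟨rfl, hk.2⟩, fun h => absurd hn h⟩⟩
    · have hc := Finset.card_filter_add_card_filter_not (s := K j)
        (fun k => |g k (x - v j)| < 3 / 4)
      rw [hcard j hj] at hc
      have hn' : 2 ^ (j + 5) ≤ ((K j).filter fun k => ¬ |g k (x - v j)| < 3 / 4).card := by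
        simp only [near, not_le] at hn
        have : 2 ^ (j + 6) = 2 ^ (j + 5) + 2 ^ (j + 5) := by ring
        omega
      obtain ⟨k, hk, hk2⟩ := he.pigeon hf (by positivity) hn'
      rw [Finset.mem_filter, not_lt] at hk
      by_cases hs : 0 ≤ g k (x - v j)
      · refine ⟨k, 1, fun _ => ⟨hk.1, Or.inl rfl, hk2, fun h => absurd h hn, fun _ => ?_⟩⟩
        rw [abs_of_nonneg hs] at hk
        linarith [hk.2]
      · refine ⟨k, -1, fun _ => ⟨hk.1, Or.inr rfl, hk2, fun h => absurd h hn, fun _ => ?_⟩⟩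
        rw [abs_of_neg (not_le.mp hs)] at hk
        linarith [hk.2]
  choose kk σ hk using h2
  have hinj : ∀ i < m, ∀ j < m, kk i = kk j → i = j := by
    intro i hi j hj hij
    by_contra hne
    rcases lt_or_gt_of_ne hne with h | h
    · exact Finset.disjoint_left.mp (hpair j hj i h).1 (hk i hi).1 (hij ▸ (hk j hj).1)
    · exact Finset.disjoint_left.mp (hpair i hi j h).1 (hk j hj).1 (hij ▸ (hk i hi).1)
  have ev1 : ∀ᶠ k in atTop, |f (e k)| < 1 / (16 * 2 ^ (m + 6)) :=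
    (he.tendsto hf).eventually (gt_mem_nhds (by positivity))
  have ev2 : ∀ᶠ k in atTop, ∀ j ∈ Finset.range m, -(68 / 1000) < g k (x' - v j) :=
    (eventually_all_finset _).mpr fun j _ => (hnull _).eventually (lt_mem_nhds (by norm_num))
  have ev3 : ∀ᶠ k in atTop, ∀ j ∈ Finset.range m, k ∉ K j :=
    (eventually_all_finset _).mpr fun j _ => by
      rw [← Nat.cofinite_eq_atTop]
      exact (K j).eventually_cofinite_notMem
  obtain ⟨N, hN⟩ := eventually_atTop.mp (ev1.and (ev2.and ev3))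
  let Kn : Finset ℕ := Finset.Ico N (N + 2 ^ (m + 6))
  have hKn : ∀ k ∈ Kn, N ≤ k := fun k hk => (Finset.mem_Ico.mp hk).1
  have hKc : Kn.card = 2 ^ (m + 6) := by simp [Kn]
  let c : ℕ → ℝ := fun k => if h : ∃ j < m, kk j = k then σ h.choose else 1
  have hc1 : ∀ j < m, c (kk j) = σ j := by
    intro j hj
    have h : ∃ i < m, kk i = kk j := ⟨j, hj, rfl⟩
    simp only [c, dif_pos h]
    rw [hinj _ h.choose_spec.1 j hj h.choose_spec.2]
  have hc2 : ∀ k ∈ Kn, c k = 1 := by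
    intro k hkk
    have h : ¬ ∃ j < m, kk j = k := by
      rintro ⟨j, hj, rfl⟩
      exact (hN _ (hKn _ hkk)).2.2 j (Finset.mem_range.mpr hj) (hk j hj).1
    simp only [c, dif_neg h]
  have hc3 : ∀ k, |c k| ≤ 1 := by
    intro k
    by_cases h : ∃ j < m, kk j = k
    · obtain ⟨j, hj, rfl⟩ := h
      rw [hc1 j hj]
      rcases (hk j hj).2.1 with h | h <;> simp [h]
    · simp only [c, dif_neg h]; simp
  let F : Finset ℕ := (Finset.range m).image kk ∪ Kn
  obtain ⟨w, hw⟩ : ∃ w : X, w = ∑ k ∈ F, c k • e k := ⟨_, rfl⟩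
  have hw1 : ‖w‖ ≤ 1 := hw ▸ he F c hc3
  have hw2 : ∀ j < m, 98 / 100 ≤ σ j * g (kk j) w := by
    intro j hj
    have := he.coord (hg (kk j)) (F := F) hc3 (k0 := kk j)
      (Finset.mem_union_left _ (Finset.mem_image_of_mem _ (Finset.mem_range.mpr hj)))
      (by rw [hc1 j hj]; exact (hk j hj).2.1)
    rw [hc1 j hj, ← hw] at this
    linarith [hge (kk j)]
  have hw3 : ∀ k ∈ Kn, 98 / 100 ≤ g k w := by
    intro k hkk
    have := he.coord (hg k) (F := F) hc3 (k0 := k) (Finset.mem_union_right _ hkk)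
      (Or.inl (hc2 k hkk))
    rw [hc2 k hkk, ← hw] at this
    linarith [hge k]
  have hw4 : -(1 / 8) ≤ f w := by
    have a1 : |f w| ≤ ∑ k ∈ F, |f (e k)| := by
      rw [hw, map_sum]
      refine (Finset.abs_sum_le_sum_abs _ _).trans (Finset.sum_le_sum fun k _ => ?_)
      rw [map_smul, smul_eq_mul, abs_mul]
      nlinarith [hc3 k, abs_nonneg (f (e k)), abs_nonneg (c k)]
    have a2 : ∑ k ∈ F, |f (e k)| ≤
        ∑ k ∈ (Finset.range m).image kk, |f (e k)| + ∑ k ∈ Kn, |f (e k)| := by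
      rw [← Finset.sum_union_inter]
      exact le_add_of_nonneg_right (Finset.sum_nonneg fun _ _ => abs_nonneg _)
    have a3 : ∑ k ∈ (Finset.range m).image kk, |f (e k)| ≤ 1 / 16 := by
      rw [Finset.sum_image fun i hi j hj => hinj i (Finset.mem_range.mp hi) j
        (Finset.mem_range.mp hj)]
      calc ∑ j ∈ Finset.range m, |f (e (kk j))|
          ≤ ∑ j ∈ Finset.range m, (1 / 32) * (1 / (2 : ℝ)) ^ j := by
            refine Finset.sum_le_sum fun j hj => ((hk j (Finset.mem_range.mp hj)).2.2.1).trans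
              (le_of_eq ?_)
            push_cast
            rw [one_div_pow, pow_add]
            field_simp
            norm_num
        _ ≤ 1 / 16 := by
            rw [← Finset.mul_sum]
            linarith [sum_geometric_two_le m]
    have a4 : ∑ k ∈ Kn, |f (e k)| ≤ 1 / 16 := by
      calc ∑ k ∈ Kn, |f (e k)| ≤ ∑ k ∈ Kn, (1 / (16 * 2 ^ (m + 6)) : ℝ) :=
            Finset.sum_le_sum fun k hkk => (hN k (hKn k hkk)).1.le
        _ = 1 / 16 := by
            rw [Finset.sum_const, hKc, nsmul_eq_mul]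
            push_cast
            field_simp
    linarith [neg_abs_le (f w)]
  refine ⟨x' + (8 / 5 : ℝ) • w, Kn, ?_, hKc, fun i hi => ⟨?_, ?_, ?_⟩⟩
  · rw [norm_sub_rev, show x' + (8 / 5 : ℝ) • w - x = (x' - x) + (8 / 5 : ℝ) • w by abel]
    refine (norm_add_le _ _).trans ?_
    rw [norm_smul, Real.norm_of_nonneg (by norm_num)]
    linarith
  · exact Finset.disjoint_right.mpr fun k hkk => (hN k (hKn k hkk)).2.2 i (Finset.mem_range.mpr hi)
  · have key : ∀ j < m, 3 / 4 ≤ σ j * g (kk j) (x - v i) → 2 ≤ ‖x' + (8 / 5 : ℝ) • w - v i‖ := by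
      intro j hj h
      have b1 := abs_le.mp (abs_apply_le (hg (kk j)) (x' + (8 / 5 : ℝ) • w - v i))
      have b2 := abs_le.mp ((abs_apply_le (hg (kk j)) (x' - x)).trans hx')
      have b3 := hw2 j hj
      have b4 : g (kk j) (x' + (8 / 5 : ℝ) • w - v i) =
          g (kk j) (x - v i) + g (kk j) (x' - x) + 8 / 5 * g (kk j) w := by
        rw [← smul_eq_mul, ← map_smul, ← map_add, ← map_add]
        congr 1; abel
      rcases (hk j hj).2.1 with h1 | h1 <;> rw [h1] at h b3 <;> linarith [b1.1, b1.2, b2.1, b2.2]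
    by_cases hn : near i
    · by_cases hl : ∀ j' < m, i < j' → ¬ near j'
      · have b1 := hJ i hi hn hl
        have b2 := abs_le.mp (abs_apply_le hf (x' + (8 / 5 : ℝ) • w - v i))
        have b4 : f (x' + (8 / 5 : ℝ) • w - v i) = f (x' - v i) + 8 / 5 * f w := by
          rw [← smul_eq_mul, ← map_smul, ← map_add]
          congr 1; abel
        linarith [b2.2]
      · push Not at hl
        obtain ⟨j, hj, hij, hnj⟩ := hl
        obtain ⟨b1, b2⟩ := (hk j hj).2.2.2.1 hnj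
        refine key j hj ?_
        have b3 := (hpair j hj i hij).2.2 _ (hk j hj).1
        have b4 : g (kk j) (x - v i) = g (kk j) (x - v j) + g (kk j) (v j - v i) := by
          rw [← map_add]; congr 1; abel
        rw [b1, one_mul, b4]
        linarith [(abs_lt.mp b2).1]
    · exact key i hi ((hk i hi).2.2.2.2 hn)
  · intro k hkk
    have b1 := (hN k (hKn k hkk)).2.1 i (Finset.mem_range.mpr hi)
    have b2 := hw3 k hkk
    have b4 : g k (x' + (8 / 5 : ℝ) • w - v i) = g k (x' - v i) + 8 / 5 * g k w := by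
      rw [← smul_eq_mul, ← map_smul, ← map_add]
      congr 1; abel
    linarith

theorem stratB [TopologicalSpace.SeparableSpace X] {e : ℕ → X} {g : ℕ → X →L[ℝ] ℝ}
    (he : Upper e 1) (hg : ∀ k, ‖g k‖ ≤ 1) (hge : ∀ k, 99 / 100 ≤ g k (e k))
    (hnull : ∀ x, Tendsto (fun k => g k x) atTop (𝓝 0)) : Goal X := by
  classical
  refine greedy (σ := ℕ × (ℕ → X) × (ℕ → Finset ℕ)) (fun s => s.2.1 '' {j | j < s.1}) (InvB g)
    (0, fun _ => 0, fun _ => ∅) ⟨by simp, by simp⟩ ?_ (r := 19 / 10) (by norm_num) (by norm_num) ?_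
  · rintro ⟨m, v, K⟩ hI _ ⟨i, hi, rfl⟩ _ ⟨j, hj, rfl⟩ hne
    rcases lt_trichotomy i j with h | h | h
    · rw [norm_sub_rev]; exact (hI.2 j hj i h).2.1
    · exact absurd (congrArg v h) hne
    · exact (hI.2 i hi j h).2.1
  · rintro ⟨m, v, K⟩ hI x hx
    obtain ⟨u, Kn, h1, h2, h3⟩ := stepB he hg hge hnull hI (x := x)
      (fun j hj => hx _ ⟨j, hj, rfl⟩)
    refine ⟨(m + 1, Function.update v m u, Function.update K m Kn), ⟨?_, ?_⟩, ?_, u, ?_, h1⟩
    · intro j hj
      simp only at hj ⊢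
      rcases Nat.lt_succ_iff_lt_or_eq.mp hj with h | rfl
      · rw [Function.update_of_ne h.ne]; exact hI.1 j h
      · rw [Function.update_self]; exact h2
    · intro j hj i hi
      simp only at hj ⊢
      rcases Nat.lt_succ_iff_lt_or_eq.mp hj with h | rfl
      · have hi' : i ≠ m := by omega
        simp only [Function.update_of_ne h.ne, Function.update_of_ne hi']
        exact hI.2 j h i hi
      · simp only [Function.update_of_ne hi.ne, Function.update_self]
        exact h3 i hi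
    · rintro _ ⟨j, hj, rfl⟩
      simp only [mem_ofPred_eq] at hj
      exact ⟨j, by simp only [mem_ofPred_eq]; omega, by simp only [Function.update_of_ne hj.ne]⟩
    · exact ⟨m, by simp, by simp⟩

end Pool.Agent.P.MP_ef1120_an
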