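import Mathlib
import Pool.Agent.P.MP_ef1120_an.StratB

set_option autoImplicit false

/-
From a seminormalised sequence with bounded signed sums to an almost isometric one with weak-star
null coordinate functionals.
-/

namespace Pool.Agent.P.MP_ef1120_an

open Set Filter Topology

variable {X : Type*} [NormedAddCommGroup X] [NormedSpace ℝ X]

/-- Combinations with coefficients in `[-1, 1]` supported in `[m, n)`. -/
def Blk (x : ℕ → X) (m n : ℕ) : Set X :=
  {z | ∃ (F : Finset ℕ) (c : ℕ → ℝ), (∀ k ∈ F, m ≤ k ∧ k < n) ∧ (∀ k, |c k| ≤ 1) ∧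
    z = ∑ k ∈ F, c k • x k}

theorem Blk.add {x : ℕ → X} {m n p : ℕ} (hmn : m ≤ n) (hnp : n ≤ p) {z z' : X}
    (hz : z ∈ Blk x m n) (hz' : z' ∈ Blk x n p) : z + z' ∈ Blk x m p := by
  obtain ⟨F, c, hF, hc, rfl⟩ := hz
  obtain ⟨F', c', hF', hc', rfl⟩ := hz'
  refine ⟨F ∪ F', fun k => if k < n then c k else c' k, ?_, ?_, ?_⟩
  · intro k hk
    rcases Finset.mem_union.mp hk with h | h
    · have := hF k h; omega
    · have := hF' k h; omega
  · intro k
    by_cases h : k < n
    · simp only [if_pos h]; exact hc k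
    · simp only [if_neg h]; exact hc' k
  · rw [Finset.sum_union (Finset.disjoint_left.mpr fun k h h' => by
      have := hF k h; have := hF' k h'; omega)]
    congr 1
    · exact Finset.sum_congr rfl fun k hk => by simp only [if_pos (hF k hk).2]
    · exact Finset.sum_congr rfl fun k hk => by simp only [if_neg (not_lt.mpr (hF' k hk).1)]

theorem Blk.smul {x : ℕ → X} {m n : ℕ} {z : X} (hz : z ∈ Blk x m n) {b : ℝ} (hb : |b| ≤ 1) :
    b • z ∈ Blk x m n := by
  obtain ⟨F, c, hF, hc, rfl⟩ := hz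
  refine ⟨F, fun k => b * c k, hF, fun k => ?_, ?_⟩
  · rw [abs_mul]; exact mul_le_one₀ hb (abs_nonneg _) (hc k)
  · rw [Finset.smul_sum]; simp only [mul_smul]

theorem upper_of_range {e : ℕ → X} {C : ℝ}
    (h : ∀ (n : ℕ) (c : ℕ → ℝ), (∀ k, |c k| ≤ 1) → ‖∑ k ∈ Finset.range n, c k • e k‖ ≤ C) :
    Upper e C := by
  classical
  intro F c hc
  obtain ⟨n, hn⟩ := F.exists_nat_subset_range
  have := h n (fun k => if k ∈ F then c k else 0) (by
    intro k; split_ifs
    · exact hc k
    · simp)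
  rwa [← Finset.sum_subset hn (by intro k _ hk; simp [hk]),
    Finset.sum_congr rfl (fun k hk => by rw [if_pos hk])] at this

theorem james {x : ℕ → X} {C a : ℝ} (ha : 0 < a) (hx : Upper x C) (hlow : ∀ n, a ≤ ‖x n‖) :
    ∃ e : ℕ → X, Upper e 1 ∧ ∀ k, 199 / 200 ≤ ‖e k‖ := by
  let S : ℕ → Set ℝ := fun m => {r | ∃ n, ∃ z ∈ Blk x m n, r = ‖z‖}
  have hbdd : ∀ m, BddAbove (S m) := fun m => ⟨C, by
    rintro _ ⟨n, _, ⟨F, c, -, hc, rfl⟩, rfl⟩
    exact hx F c hc⟩
  have hmem : ∀ m, ‖x m‖ ∈ S m := fun m =>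
    ⟨m + 1, x m, ⟨{m}, fun _ => 1, by simp, by simp, by simp⟩, rfl⟩
  have hK : ∀ m, a ≤ sSup (S m) := fun m => (hlow m).trans (le_csSup (hbdd m) (hmem m))
  have hbb : BddBelow (range fun m => sSup (S m)) := ⟨a, by rintro _ ⟨m, rfl⟩; exact hK m⟩
  obtain ⟨K, hKdef⟩ : ∃ K, K = ⨅ m, sSup (S m) := ⟨_, rfl⟩
  have hK0 : 0 < K := ha.trans_le (hKdef ▸ le_ciInf hK)
  obtain ⟨n0, hn0⟩ : ∃ n0, sSup (S n0) < K * (401 / 400) :=
    exists_lt_of_ciInf_lt (by rw [← hKdef]; linarith)
  have hblk : ∀ m, ∃ n, m ≤ n ∧ ∃ z ∈ Blk x m n, K * (399 / 400) < ‖z‖ := by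
    intro m
    have h1 : K ≤ sSup (S m) := hKdef ▸ ciInf_le hbb m
    obtain ⟨_, ⟨n, z, ⟨F, c, hF, hc, hz⟩, rfl⟩, h2⟩ := exists_lt_of_lt_csSup ⟨_, hmem m⟩
      (show K * (399 / 400) < sSup (S m) by linarith)
    exact ⟨max m n, le_max_left _ _, z,
      ⟨F, c, fun k hk => ⟨(hF k hk).1, (hF k hk).2.trans_le (le_max_right _ _)⟩, hc, hz⟩, h2⟩
  choose nx hnx z hz1 hz2 using hblk
  let mm : ℕ → ℕ := fun j => nx^[j] n0
  have hmm : ∀ j, mm (j + 1) = nx (mm j) := fun j => Function.iterate_succ_apply' nx j n0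
  have hmono : ∀ j, n0 ≤ mm j := by
    intro j
    induction j with
    | zero => exact le_rfl
    | succ j ih => rw [hmm]; exact ih.trans (hnx _)
  have hsum : ∀ (c : ℕ → ℝ), (∀ k, |c k| ≤ 1) → ∀ n,
      ∑ k ∈ Finset.range n, c k • z (mm k) ∈ Blk x n0 (mm n) := by
    intro c hc n
    induction n with
    | zero => exact ⟨∅, fun _ => 0, by simp, by simp, by simp⟩
    | succ n ih =>
      rw [Finset.sum_range_succ, hmm]
      exact Blk.add (hmono n) (hnx _) ih (Blk.smul (hz1 _) (hc n))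
  have hpos : 0 < K * (401 / 400) := by positivity
  refine ⟨fun k => (K * (401 / 400))⁻¹ • z (mm k), upper_of_range fun n c hc => ?_, fun k => ?_⟩
  · have h1 : ‖∑ k ∈ Finset.range n, c k • z (mm k)‖ ≤ sSup (S n0) :=
      le_csSup (hbdd n0) ⟨_, _, hsum c hc n, rfl⟩
    simp only [smul_comm (c _), ← Finset.smul_sum]
    rw [norm_smul, Real.norm_of_nonneg (by positivity), inv_mul_le_iff₀ hpos]
    linarith
  · rw [norm_smul, Real.norm_of_nonneg (by positivity), le_inv_mul_iff₀ hpos]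
    linarith [hz2 (mm k)]

theorem Upper.comp {e : ℕ → X} {C : ℝ} (he : Upper e C) {φ : ℕ → ℕ} (hφ : Function.Injective φ) :
    Upper (fun k => e (φ k)) C := by
  intro F c hc
  have := he (F.image φ) (Function.extend φ c 0) (by
    intro k
    by_cases h : ∃ j, φ j = k
    · obtain ⟨j, rfl⟩ := h
      rw [hφ.extend_apply]; exact hc j
    · rw [Function.extend_apply' _ _ _ h]; simp)
  rw [Finset.sum_image fun i _ j _ h => hφ h] at this
  simpa only [hφ.extend_apply] using this

theorem Upper.diff {e : ℕ → X} {C : ℝ} (he : Upper e C) :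
    Upper (fun k => e (2 * k) - e (2 * k + 1)) C := by
  refine upper_of_range fun n c hc => ?_
  have := he (Finset.range (2 * n)) (fun l => if l % 2 = 0 then c (l / 2) else -c (l / 2)) (by
    intro k; split_ifs
    · exact hc _
    · rw [abs_neg]; exact hc _)
  convert this using 2
  clear this
  induction n with
  | zero => simp
  | succ n ih =>
    rw [Finset.sum_range_succ, ih, show 2 * (n + 1) = 2 * n + 1 + 1 by ring,
      Finset.sum_range_succ, Finset.sum_range_succ, if_pos (by omega), if_neg (by omega),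
      show 2 * n / 2 = n by omega, show (2 * n + 1) / 2 = n by omega]
    module

theorem goal_of_upper [TopologicalSpace.SeparableSpace X] {x : ℕ → X} {C a : ℝ} (ha : 0 < a)
    (hx : Upper x C) (hlow : ∀ n, a ≤ ‖x n‖) : Goal X := by
  obtain ⟨e, he, he2⟩ := james ha hx hlow
  choose g hg1 hg2 using fun k => exists_dual_vector'' ℝ (e k)
  obtain ⟨G, -, φ, hφ, hlim⟩ := WeakDual.isSeqCompact_closedBall ℝ X (0 : StrongDual ℝ X) 1
    (x := fun k => StrongDual.toWeakDual (g k)) (by
      intro k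
      simpa using hg1 k)
  have hlim' : ∀ y, Tendsto (fun k => g (φ k) y) atTop (𝓝 (G y)) := fun y =>
    ((WeakDual.eval_continuous y).tendsto G).comp hlim
  have key : ∀ i j, i ≠ j → 99 / 100 ≤ g i (e i - e j) := by
    intro i j hij
    have h1 := he {i, j} (fun _ => 1) (by simp)
    rw [Finset.sum_pair hij, one_smul, one_smul] at h1
    have h2 := (abs_le.mp ((abs_apply_le (hg1 i) _).trans h1)).2
    have h3 := hg2 i
    simp only [RCLike.ofReal_real_eq_id, id_eq] at h3
    rw [map_add] at h2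
    rw [map_sub]
    linarith [he2 i]
  refine stratB (e := fun k => e (φ (2 * k)) - e (φ (2 * k + 1)))
    (g := fun k => (1 / 2 : ℝ) • (g (φ (2 * k)) - g (φ (2 * k + 1))))
    (he.comp hφ.injective).diff (fun k => ?_) (fun k => ?_) (fun y => ?_)
  · rw [norm_smul, Real.norm_of_nonneg (by norm_num)]
    linarith [norm_sub_le (g (φ (2 * k))) (g (φ (2 * k + 1))), hg1 (φ (2 * k)), hg1 (φ (2 * k + 1))]
  · have hne : φ (2 * k) ≠ φ (2 * k + 1) := fun h => by have := hφ.injective h; omega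
    have h1 := key _ _ hne
    have h2 := key _ _ hne.symm
    simp only [smul_apply, sub_apply, map_sub,
      smul_eq_mul] at h1 h2 ⊢
    linarith
  · have t1 : Tendsto (fun k : ℕ => 2 * k) atTop atTop :=
      tendsto_atTop_mono (fun k => by simp only [id]; omega) tendsto_id
    have t2 : Tendsto (fun k : ℕ => 2 * k + 1) atTop atTop :=
      tendsto_atTop_mono (fun k => by simp only [id]; omega) tendsto_id
    have := (((hlim' y).comp t1).sub ((hlim' y).comp t2)).const_mul (1 / 2 : ℝ)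
    simpa using this

end Pool.Agent.P.MP_ef1120_an
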