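import Mathlib
import Pool.Agent.P.MP_ef1120_an.James

set_option autoImplicit false

/-
The dichotomy: either some symmetric ultrafilter grows when half of it is added in front, or the space
contains a seminormalised sequence with bounded signed sums.
-/

namespace Pool.Agent.P.MP_ef1120_an

open Set Filter Topology

variable {X : Type*} [NormedAddCommGroup X]

omit [NormedAddCommGroup X] in
theorem isClosed_eventually (p : X → Prop) :
    IsClosed {U : Ultrafilter X | ∀ᶠ x in (U : Filter X), p x} :=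
  ultrafilter_isClosed_basic {x | p x}

omit [NormedAddCommGroup X] in
theorem isOpen_eventually (p : X → Prop) :
    IsOpen {U : Ultrafilter X | ∀ᶠ x in (U : Filter X), p x} :=
  ultrafilter_isOpen_basic {x | p x}

/-- Every member of `U` contains two points whose sum has norm less than `ε`. -/
def SymE (ε : ℝ) (U : Ultrafilter X) : Prop :=
  ∀ p : X → Prop, (∀ᶠ x in (U : Filter X), p x) → ∃ x y, p x ∧ p y ∧ ‖x + y‖ < ε

theorem isClosed_symE (ε : ℝ) : IsClosed {U : Ultrafilter X | SymE ε U} := by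
  simp only [SymE, ofPred_forall]
  refine isClosed_iInter fun p => ?_
  by_cases h : ∃ x y, p x ∧ p y ∧ ‖x + y‖ < ε
  · simp only [h, implies_true, ofPred_true, isClosed_univ]
  · simp only [h, imp_false]
    exact (isOpen_eventually p).isClosed_compl

theorem isClosed_sym : IsClosed {U : Ultrafilter X | Sym U ∧ Unit U} := by
  have e : {U : Ultrafilter X | Sym U ∧ Unit U} = ⋂ ε : {ε : ℝ // 0 < ε},
      ({U | SymE ε.1 U} ∩ {U | ∀ᶠ x in (U : Filter X), 1 - ε.1 < ‖x‖ ∧ ‖x‖ < 1 + ε.1}) := by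
    ext U
    simp only [mem_ofPred_eq, mem_iInter, mem_inter_iff, Subtype.forall]
    exact ⟨fun h ε hε => ⟨fun p hp => h.1 p hp ε hε, h.2 ε hε⟩,
      fun h => ⟨fun p hp ε hε => (h ε hε).1 p hp, fun ε hε => (h ε hε).2⟩⟩
  rw [e]
  exact isClosed_iInter fun ε => (isClosed_symE _).inter (isClosed_eventually _)

variable [NormedSpace ℝ X]

/-- The ultrafilter of sums `x / 2 + y`, first `x` then `y` along `U`. -/
noncomputable def Tr (U : Ultrafilter X) : Ultrafilter X :=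
  U.bind fun x => U.map fun y => (1 / 2 : ℝ) • x + y

theorem eventually_Tr {U : Ultrafilter X} {p : X → Prop} :
    (∀ᶠ z in (Tr U : Filter X), p z) ↔
      ∀ᶠ x in (U : Filter X), ∀ᶠ y in (U : Filter X), p ((1 / 2 : ℝ) • x + y) := Iff.rfl

theorem Sym.tr {U : Ultrafilter X} (hS : Sym U) : Sym (Tr U) := by
  intro p hp ε hε
  rw [eventually_Tr] at hp
  obtain ⟨x1, x2, h1, h2, hx⟩ := hS _ hp (ε / 2) (by positivity)
  obtain ⟨y1, y2, ⟨k1, -⟩, ⟨-, k2⟩, hy⟩ := hS _ (h1.and h2) (ε / 2) (by positivity)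
  refine ⟨_, _, k1, k2, ?_⟩
  rw [show (1 / 2 : ℝ) • x1 + y1 + ((1 / 2 : ℝ) • x2 + y2) = (1 / 2 : ℝ) • (x1 + x2) + (y1 + y2) by
    module]
  refine (norm_add_le _ _).trans_lt ?_
  rw [norm_smul, Real.norm_of_nonneg (by norm_num)]
  linarith [norm_nonneg (x1 + x2)]

theorem tr_lower {U : Ultrafilter X} (hS : Sym U) (hU : Unit U) {ε : ℝ} (hε : 0 < ε) :
    ∀ᶠ z in (Tr U : Filter X), 1 - ε < ‖z‖ := by
  rw [eventually_Tr]
  refine Eventually.of_forall fun x => ?_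
  by_contra hc
  rw [← Ultrafilter.eventually_not] at hc
  obtain ⟨y1, y2, ⟨h1, h3, -⟩, ⟨h2, -⟩, hy⟩ := hS _ (hc.and (hU (ε / 2) (by positivity))) ε hε
  have e : (2 : ℝ) • y1 = ((1 / 2 : ℝ) • x + y1) - ((1 / 2 : ℝ) • x + y2) + (y1 + y2) := by module
  have h4 : ‖(2 : ℝ) • y1‖ ≤ ‖(1 / 2 : ℝ) • x + y1‖ + ‖(1 / 2 : ℝ) • x + y2‖ + ‖y1 + y2‖ := by
    rw [e]
    exact (norm_add_le _ _).trans (add_le_add_left (norm_sub_le _ _) _)
  rw [norm_smul, Real.norm_of_nonneg (by norm_num)] at h4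
  linarith

theorem norm_le_of_ends {u w : X} {a ρ : ℝ} (ha : |a| ≤ 1) (h1 : ‖u + w‖ ≤ ρ) (h2 : ‖u - w‖ ≤ ρ) :
    ‖u + a • w‖ ≤ ρ := by
  rw [abs_le] at ha
  have e : u + a • w = ((1 + a) / 2) • (u + w) + ((1 - a) / 2) • (u - w) := by module
  rw [e]
  refine (norm_add_le _ _).trans ?_
  rw [norm_smul, norm_smul, Real.norm_of_nonneg (by linarith), Real.norm_of_nonneg (by linarith)]
  nlinarith [ha.1, ha.2]

theorem upper_of_invariant {M : Set (Ultrafilter X)} (hne : M.Nonempty)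
    (hM : ∀ U ∈ M, Sym U ∧ Unit U) (hd : M ⊆ closure (Tr '' M)) :
    ∃ x : ℕ → X, Upper x 8 ∧ ∀ n, 1 / 2 ≤ ‖x n‖ := by
  obtain ⟨V0, hV0⟩ := hne
  obtain ⟨f, hf0, hf⟩ := exists_seq_step (σ := Set X × Ultrafilter X × ℝ)
    (Inv := fun s => s.2.1 ∈ M ∧ s.2.2 < 2 ∧
      ∀ᶠ y in (s.2.1 : Filter X), ∀ z ∈ s.1, ‖z + y‖ ≤ s.2.2)
    (R := fun _ s s' => ∃ x : X, 1 / 2 ≤ ‖x‖ ∧
      ∀ z ∈ s.1, ∀ a : ℝ, |a| ≤ 1 → z + a • (1 / 2 : ℝ) • x ∈ s'.1)
    ({0}, V0, 3 / 2) ⟨hV0, by norm_num, by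
      filter_upwards [(hM V0 hV0).2 (1 / 2) (by norm_num)] with y hy
      simp only [mem_singleton_iff, forall_eq, zero_add]
      linarith [hy.2]⟩ (by
      rintro - ⟨S, V, ρ⟩ ⟨hV, hρ, hS⟩
      simp only at hV hρ hS
      obtain ⟨_, h1, V', hV', rfl⟩ := mem_closure_iff.mp (hd hV) _ (isOpen_eventually _) hS
      rw [mem_ofPred_eq, eventually_Tr] at h1
      obtain ⟨x1, x2, ⟨k1, k3, -⟩, ⟨k2, -⟩, hx⟩ := (hM V' hV').1 _
        (h1.and ((hM V' hV').2 (1 / 2) (by norm_num))) (2 - ρ) (by linarith)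
      refine ⟨({w | ∃ z ∈ S, ∃ a : ℝ, |a| ≤ 1 ∧ w = z + a • (1 / 2 : ℝ) • x1}, V', (ρ + 2) / 2),
        ⟨hV', by simp only; linarith, ?_⟩, x1, by linarith, fun z hz a ha => ⟨z, hz, a, ha, rfl⟩⟩
      filter_upwards [k1, k2] with y hy1 hy2
      rintro _ ⟨z, hz, a, ha, rfl⟩
      rw [show z + a • (1 / 2 : ℝ) • x1 + y = (z + y) + a • (1 / 2 : ℝ) • x1 by abel]
      refine norm_le_of_ends ha ?_ ?_
      · rw [show z + y + (1 / 2 : ℝ) • x1 = z + ((1 / 2 : ℝ) • x1 + y) by abel]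
        linarith [hy1 z hz]
      · rw [show z + y - (1 / 2 : ℝ) • x1 =
          (z + ((1 / 2 : ℝ) • x2 + y)) - (1 / 2 : ℝ) • (x1 + x2) by module]
        refine (norm_sub_le _ _).trans ?_
        rw [norm_smul, Real.norm_of_nonneg (by norm_num)]
        linarith [hy2 z hz])
  choose x hx1 hx2 using fun n => (hf n).2
  refine ⟨x, upper_of_range fun n c hc => ?_, hx1⟩
  have hmem : ∀ n, ∑ k ∈ Finset.range n, c k • (1 / 2 : ℝ) • x k ∈ (f n).1 := by
    intro n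
    induction n with
    | zero => rw [hf0]; simp
    | succ n ih => rw [Finset.sum_range_succ]; exact hx2 n _ ih _ (hc n)
  obtain ⟨hV, hρ, hS⟩ := (hf n).1
  obtain ⟨y, h1, -, h2⟩ := (hS.and ((hM _ hV).2 1 one_pos)).exists
  have h3 := h1 _ (hmem n)
  have h4 := norm_sub_le (∑ k ∈ Finset.range n, c k • (1 / 2 : ℝ) • x k + y) y
  rw [add_sub_cancel_right] at h4
  simp only [smul_comm (c _), ← Finset.smul_sum] at h3 h4
  rw [norm_smul, Real.norm_of_nonneg (by norm_num)] at h4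
  linarith

theorem goal_of_sym [TopologicalSpace.SeparableSpace X]
    (hne : ∃ U : Ultrafilter X, Sym U ∧ Unit U) : Goal X := by
  by_cases hA : ∃ U : Ultrafilter X, (Sym U ∧ Unit U) ∧ ∃ δ : ℝ, 0 < δ ∧
      ∀ᶠ w in (U : Filter X), ∀ᶠ w' in (U : Filter X), 1 + δ ≤ ‖(1 / 2 : ℝ) • w + w'‖
  · obtain ⟨U, hU, δ, hδ, h⟩ := hA
    refine stratA hU.1 hU.2 (δ := min δ 1) (lt_min hδ one_pos) (min_le_right _ _) ?_
    filter_upwards [h] with w hw
    filter_upwards [hw] with w' hw'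
    linarith [min_le_left δ 1]
  have hT : ∀ U : Ultrafilter X, Sym U ∧ Unit U → Sym (Tr U) ∧ Unit (Tr U) := by
    intro U hU
    refine ⟨hU.1.tr, fun ε hε => (tr_lower hU.1 hU.2 hε).and ?_⟩
    by_contra hc
    rw [← Ultrafilter.eventually_not, eventually_Tr] at hc
    refine hA ⟨U, hU, ε, hε, ?_⟩
    simpa only [not_lt] using hc
  obtain ⟨M, -, hM⟩ := zorn_superset_nonempty
    {M : Set (Ultrafilter X) | M.Nonempty ∧ IsClosed M ∧ (∀ U ∈ M, Sym U ∧ Unit U) ∧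
      ∀ U ∈ M, Tr U ∈ M}
    (by
      intro c hc hchain hcne
      have : Nonempty c := hcne.to_subtype
      refine ⟨⋂₀ c, ⟨?_, isClosed_sInter fun s hs => (hc hs).2.1, ?_, ?_⟩,
        fun s hs => sInter_subset_of_mem hs⟩
      · exact IsCompact.nonempty_sInter_of_directed_nonempty_isCompact_isClosed
          (IsChain.directedOn hchain.symm) (fun s hs => (hc hs).1)
          (fun s hs => (hc hs).2.1.isCompact) (fun s hs => (hc hs).2.1)
      · obtain ⟨s, hs⟩ := hcne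
        exact fun U hU => (hc hs).2.2.1 U (hU s hs)
      · exact fun U hU s hs => (hc hs).2.2.2 U (hU s hs))
    {U | Sym U ∧ Unit U} ⟨hne, isClosed_sym, fun _ h => h, hT⟩
  obtain ⟨h1, h2, h3, h4⟩ := hM.prop
  have hsub : closure (Tr '' M) ⊆ M := closure_minimal (by rintro _ ⟨U, hU, rfl⟩; exact h4 U hU) h2
  have hd : M ⊆ closure (Tr '' M) := hM.le_of_le
    ⟨(h1.image _).closure, isClosed_closure, fun U hU => h3 U (hsub hU),
      fun U hU => subset_closure ⟨U, hsub hU, rfl⟩⟩ hsub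
  obtain ⟨x, hx1, hx2⟩ := upper_of_invariant h1 h3 hd
  exact goal_of_upper (by norm_num) hx1 hx2

end Pool.Agent.P.MP_ef1120_an
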