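import Mathlib
import Pool.Agent.P.MP_ef1120_an.Dich

set_option autoImplicit false

/-
Existence of a symmetric ultrafilter near the unit sphere of an infinite-dimensional normed space.
-/

namespace Pool.Agent.P.MP_ef1120_an

open Set Filter Topology

section
variable {X : Type*}

/-- Put a point in front of a sequence. -/
def cons (x : X) (ω : ℕ → X) : ℕ → X
  | 0 => x
  | k + 1 => ω k

/-- Delete the `i`-th term of a sequence. -/
def erase (i : ℕ) (ω : ℕ → X) : ℕ → X := fun k => if k < i then ω k else ω (k + 1)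

/-- Choose the first `n` terms of a sequence successively along `U`. -/
def pw [Zero X] (U : Ultrafilter X) : ℕ → Ultrafilter (ℕ → X)
  | 0 => pure 0
  | n + 1 => U.bind fun x => (pw U n).map (cons x)

variable [Zero X] {U : Ultrafilter X}

theorem pw_succ {n : ℕ} {p : (ℕ → X) → Prop} :
    (∀ᶠ ω in (pw U (n + 1) : Filter (ℕ → X)), p ω) ↔
      ∀ᶠ x in (U : Filter X), ∀ᶠ ω in (pw U n : Filter (ℕ → X)), p (cons x ω) := Iff.rfl

theorem pw_erase : ∀ (n i : ℕ), i ≤ n → ∀ p : (ℕ → X) → Prop,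
    (∀ᶠ ω in (pw U n : Filter (ℕ → X)), p ω) →
      ∀ᶠ ω in (pw U (n + 1) : Filter (ℕ → X)), p (erase i ω) := by
  have h0 : ∀ (n : ℕ) (p : (ℕ → X) → Prop), (∀ᶠ ω in (pw U n : Filter (ℕ → X)), p ω) →
      ∀ᶠ ω in (pw U (n + 1) : Filter (ℕ → X)), p (erase 0 ω) := by
    intro n p hp
    rw [pw_succ]
    exact Eventually.of_forall fun x => hp
  intro n
  induction n with
  | zero =>
    intro i hi
    obtain rfl : i = 0 := by omega
    exact h0 0
  | succ n ih =>
    intro i hi p hp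
    cases i with
    | zero => exact h0 _ p hp
    | succ i =>
      rw [pw_succ] at hp ⊢
      filter_upwards [hp] with x hx
      filter_upwards [ih i (by omega) _ hx] with ω hω
      convert hω using 1
      ext k
      cases k with
      | zero => simp [erase, cons]
      | succ k => simp [erase, cons]

theorem pw_lift {n : ℕ} {p : (ℕ → X) → Prop}
    (hp : ∀ ω ω' : ℕ → X, (∀ k < n, ω k = ω' k) → p ω → p ω')
    (h : ∀ᶠ ω in (pw U n : Filter (ℕ → X)), p ω) {N : ℕ} (hN : n ≤ N) :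
    ∀ᶠ ω in (pw U N : Filter (ℕ → X)), p ω := by
  induction N, hN using Nat.le_induction with
  | base => exact h
  | succ N hN ih =>
    filter_upwards [pw_erase N N le_rfl _ ih] with ω hω
    exact hp _ _ (fun k hk => by simp [erase, show k < N by omega]) hω

theorem pw_shift {n : ℕ} {p : (ℕ → X) → Prop} (h : ∀ᶠ ω in (pw U n : Filter (ℕ → X)), p ω)
    (j : ℕ) : ∀ᶠ ω in (pw U (n + j) : Filter (ℕ → X)), p fun k => ω (k + j) := by
  induction j with
  | zero => exact h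
  | succ j ih => exact pw_erase (n + j) 0 (Nat.zero_le _) _ ih

end

variable {X : Type*} [NormedAddCommGroup X] [NormedSpace ℝ X]

theorem normalize_add {a b : X} (ha : 0 < ‖a‖) (hb : 0 < ‖b‖) :
    ‖‖a‖⁻¹ • a + ‖b‖⁻¹ • b‖ ≤ 2 * ‖a + b‖ / ‖a‖ := by
  have e : ‖a‖⁻¹ • a + ‖b‖⁻¹ • b = ‖a‖⁻¹ • (a + b) + (‖b‖⁻¹ - ‖a‖⁻¹) • b := by module
  rw [e]
  refine (norm_add_le _ _).trans ?_
  rw [norm_smul, norm_smul, Real.norm_of_nonneg (by positivity), Real.norm_eq_abs]
  have h1 : |‖a‖ - ‖b‖| ≤ ‖a + b‖ := by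
    have := abs_norm_sub_norm_le a (-b)
    rwa [norm_neg, sub_neg_eq_add] at this
  have h2 : |‖b‖⁻¹ - ‖a‖⁻¹| * ‖b‖ = |‖a‖ - ‖b‖| / ‖a‖ := by
    rw [show ‖b‖⁻¹ - ‖a‖⁻¹ = (‖a‖ - ‖b‖) / (‖a‖ * ‖b‖) by field_simp, abs_div,
      abs_of_pos (mul_pos ha hb)]
    field_simp
  rw [h2, mul_div_assoc, two_mul, inv_mul_eq_div]
  gcongr

theorem symE_of {U : Ultrafilter X} {n : ℕ} {w : (ℕ → X) → X} {M D ε : ℝ} (hM : 0 < M)
    (hε : 2 * D / M < ε) (hw : ∀ ω ω' : ℕ → X, (∀ k < n, ω k = ω' k) → w ω = w ω')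
    (h1 : ∀ᶠ ω in (pw U n : Filter (ℕ → X)), M ≤ ‖w ω‖)
    (h2 : ∀ᶠ ω in (pw U (n + 1) : Filter (ℕ → X)), ‖w ω + w fun k => ω (k + 1)‖ ≤ D) :
    ∃ V : Ultrafilter X, SymE ε V ∧ ∀ᶠ x in (V : Filter X), ‖x‖ = 1 := by
  refine ⟨(pw U n).map fun ω => ‖w ω‖⁻¹ • w ω, fun p hp => ?_, ?_⟩
  · have hp' : ∀ᶠ ω in (pw U n : Filter (ℕ → X)), p (‖w ω‖⁻¹ • w ω) ∧ M ≤ ‖w ω‖ :=
      Eventually.and hp h1
    have a1 := pw_lift (fun ω ω' h hω => by rwa [← hw ω ω' h]) hp' (Nat.le_succ n)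
    have a2 := pw_shift hp' 1
    obtain ⟨ω, b1, b2, b3⟩ := (a1.and (a2.and h2)).exists
    refine ⟨_, _, b1.1, b2.1, (normalize_add (hM.trans_le b1.2) (hM.trans_le b2.2)).trans_lt
      (lt_of_le_of_lt ?_ hε)⟩
    have := norm_nonneg (w ω + w fun k => ω (k + 1))
    gcongr
    · linarith
    · exact b1.2
  · have : ∀ᶠ ω in (pw U n : Filter (ℕ → X)), ‖‖w ω‖⁻¹ • w ω‖ = 1 := by
      filter_upwards [h1] with ω hω
      rw [norm_smul, norm_inv, norm_norm, inv_mul_cancel₀ (hM.trans_le hω).ne']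
    exact this

/-- Alternating sum of the first `m` terms. -/
def alt (m : ℕ) (ω : ℕ → X) : X := ∑ i ∈ Finset.range m, (-1 : ℝ) ^ i • ω i

theorem alt_add_shift (m : ℕ) (ω : ℕ → X) :
    alt m ω + alt m (fun k => ω (k + 1)) = ω 0 - (-1 : ℝ) ^ m • ω m := by
  induction m with
  | zero => simp [alt]
  | succ m ih =>
    simp only [alt, Finset.sum_range_succ] at ih ⊢
    rw [add_add_add_comm, ih, pow_succ]
    module

theorem alt_congr {m : ℕ} {ω ω' : ℕ → X} (h : ∀ k < m, ω k = ω' k) : alt m ω = alt m ω' :=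
  Finset.sum_congr rfl fun k hk => by rw [h k (Finset.mem_range.mp hk)]

theorem alt_sub (m : ℕ) (ω ω' : ℕ → X) : alt m ω - alt m ω' = alt m fun k => ω k - ω' k := by
  simp only [alt, ← Finset.sum_sub_distrib, smul_sub]

/-- Alternating sum of the alternating sums over `m` consecutive windows. -/
def tent (m : ℕ) (ω : ℕ → X) : X := alt m fun j => alt m fun k => ω (k + j)

theorem tent_diff (m : ℕ) (ω : ℕ → X) :
    tent (m + 1) (erase m ω) - tent (m + 1) (erase (m + 1) ω) =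
      (((m + 1 : ℕ) : ℝ) * (-1) ^ m) • (ω (m + 1) - ω m) := by
  simp only [tent, alt_sub]
  have : ∀ j ∈ Finset.range (m + 1), (-1 : ℝ) ^ j •
      (alt (m + 1) fun k => erase m ω (k + j) - erase (m + 1) ω (k + j)) =
        (-1 : ℝ) ^ m • (ω (m + 1) - ω m) := by
    intro j hj
    have hj' := Finset.mem_range.mp hj
    rw [alt, Finset.sum_eq_single_of_mem (m - j) (Finset.mem_range.mpr (by omega))]
    · rw [smul_smul, ← pow_add, show j + (m - j) = m by omega, show m - j + j = m by omega]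
      simp [erase]
    · intro b _ hb
      by_cases h : b + j < m
      · simp [erase, h, show b + j < m + 1 by omega]
      · simp [erase, h, show ¬ b + j < m + 1 by omega]
  rw [alt, Finset.sum_congr rfl this, Finset.sum_const, Finset.card_range, mul_smul,
    Nat.cast_smul_eq_nsmul]

theorem exists_symE (h : ¬ FiniteDimensional ℝ X) {ε : ℝ} (hε : 0 < ε) :
    ∃ V : Ultrafilter X, SymE ε V ∧ ∀ᶠ x in (V : Filter X), ‖x‖ = 1 := by
  obtain ⟨R, u, hR, hu1, hu2⟩ := exists_seq_norm_le_one_le_norm_sub h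
  let U : Ultrafilter X := (hyperfilter ℕ).map u
  have hU1 : ∀ᶠ x in (U : Filter X), ‖x‖ ≤ R := by
    have : ∀ᶠ k in (hyperfilter ℕ : Filter ℕ), ‖u k‖ ≤ R := Eventually.of_forall hu1
    exact this
  have hU2 : ∀ᶠ x in (U : Filter X), ∀ᶠ y in (U : Filter X), 1 ≤ ‖y - x‖ := by
    have : ∀ᶠ k in (hyperfilter ℕ : Filter ℕ), ∀ᶠ l in (hyperfilter ℕ : Filter ℕ),
        1 ≤ ‖u l - u k‖ := Eventually.of_forall fun k =>
      Eventually.mono ((eventually_cofinite_ne k).filter_mono hyperfilter_le_cofinite)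
        fun l hl => hu2 hl
    exact this
  have hb : ∀ n, ∀ᶠ ω in (pw U n : Filter (ℕ → X)), ∀ k < n, ‖ω k‖ ≤ R := by
    intro n
    induction n with
    | zero => simp
    | succ n ih =>
      rw [pw_succ]
      filter_upwards [hU1] with x hx
      filter_upwards [ih] with ω hω k hk
      cases k with
      | zero => exact hx
      | succ k => exact hω k (by omega)
  have hsep : ∀ᶠ ω in (pw U 2 : Filter (ℕ → X)), 1 ≤ ‖ω 1 - ω 0‖ := by
    rw [pw_succ]
    filter_upwards [hU2] with x hx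
    rw [pw_succ]
    filter_upwards [hx] with y hy
    exact Eventually.of_forall fun ω => hy
  obtain ⟨M, hM⟩ : ∃ M : ℝ, M = 5 * R / ε := ⟨_, rfl⟩
  have hM0 : 0 < M := by rw [hM]; positivity
  obtain ⟨m, hm⟩ := exists_nat_gt (32 * M / ε)
  have hneg : ∀ (k : ℕ) (y : X), ‖(-1 : ℝ) ^ k • y‖ = ‖y‖ := fun k y => by simp [norm_smul]
  by_cases hc : ∀ᶠ ω in (pw U (m + 1) : Filter (ℕ → X)), M ≤ ‖alt (m + 1) ω‖
  · refine symE_of (D := 2 * R) hM0 ?_ (fun ω ω' => alt_congr) hc ?_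
    · rw [div_lt_iff₀ hM0, hM, mul_div_cancel₀ _ hε.ne']
      linarith
    · filter_upwards [hb (m + 1 + 1)] with ω hω
      rw [alt_add_shift]
      refine (norm_sub_le _ _).trans ?_
      rw [hneg]
      linarith [hω 0 (by omega), hω (m + 1) (by omega)]
  rw [← Ultrafilter.eventually_not] at hc
  have htent : ∀ ω ω' : ℕ → X, (∀ k < 2 * m + 1, ω k = ω' k) → tent (m + 1) ω = tent (m + 1) ω' :=
    fun ω ω' h => alt_congr fun j hj => alt_congr fun k hk => h _ (by omega)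
  have hm0 : (0 : ℝ) < ((m + 1 : ℕ) : ℝ) := by positivity
  refine symE_of (U := U) (n := 2 * m + 1) (w := tent (m + 1)) (M := ((m + 1 : ℕ) : ℝ) / 8)
    (D := 2 * M) (by positivity) ?_ htent ?_ ?_
  · rw [div_lt_iff₀ (by positivity)]
    rw [div_lt_iff₀ hε] at hm
    push_cast
    nlinarith
  · by_contra hc2
    rw [← Ultrafilter.eventually_not] at hc2
    have a1 := pw_erase (2 * m + 1) m (by omega) _ hc2
    have a2 := pw_erase (2 * m + 1) (m + 1) (by omega) _ hc2
    have a3 := pw_lift (n := 2 + m) (p := fun ω => 1 ≤ ‖ω (1 + m) - ω (0 + m)‖)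
      (fun ω ω' h hω => by rwa [← h _ (by omega), ← h _ (by omega)]) (pw_shift hsep m)
      (show 2 + m ≤ 2 * m + 1 + 1 by omega)
    obtain ⟨ω, b1, b2, b3⟩ := (a1.and (a2.and a3)).exists
    have b4 := norm_sub_le (tent (m + 1) (erase m ω)) (tent (m + 1) (erase (m + 1) ω))
    rw [tent_diff, mul_smul, norm_smul, hneg, Real.norm_of_nonneg hm0.le] at b4
    rw [zero_add, add_comm 1 m] at b3
    nlinarith
  · have a1 := pw_lift (fun ω ω' h hω => by rwa [← alt_congr h]) hc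
      (show m + 1 ≤ 2 * m + 1 + 1 by omega)
    have a2 := pw_shift hc (m + 1)
    rw [show m + 1 + (m + 1) = 2 * m + 1 + 1 by omega] at a2
    filter_upwards [a1, a2] with ω b1 b2
    have := alt_add_shift (m + 1) fun j => alt (m + 1) fun k => ω (k + j)
    have e : tent (m + 1) ω + tent (m + 1) (fun k => ω (k + 1)) =
        alt (m + 1) ω - (-1 : ℝ) ^ (m + 1) • alt (m + 1) fun k => ω (k + (m + 1)) := this
    rw [e]
    refine (norm_sub_le _ _).trans ?_
    rw [hneg]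
    linarith

theorem exists_sym (h : ¬ FiniteDimensional ℝ X) : ∃ U : Ultrafilter X, Sym U ∧ Unit U := by
  obtain ⟨U, hU⟩ := IsCompact.nonempty_iInter_of_sequence_nonempty_isCompact_isClosed
    (fun n : ℕ => {V : Ultrafilter X | SymE (1 / ((n : ℝ) + 1)) V} ∩
      {V : Ultrafilter X | ∀ᶠ x in (V : Filter X), ‖x‖ = 1})
    (by
      rintro n V ⟨h1, h2⟩
      refine ⟨fun p hp => ?_, h2⟩
      obtain ⟨x, y, a, b, c⟩ := h1 p hp
      refine ⟨x, y, a, b, c.trans_le (one_div_le_one_div_of_le (by positivity) ?_)⟩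
      push_cast
      linarith)
    (fun n => exists_symE h (by positivity))
    ((isClosed_symE _).inter (isClosed_eventually _)).isCompact
    (fun n => (isClosed_symE _).inter (isClosed_eventually _))
  rw [mem_iInter] at hU
  refine ⟨U, fun p hp ε hε => ?_, fun ε hε => ?_⟩
  · obtain ⟨n, hn⟩ := exists_nat_one_div_lt hε
    obtain ⟨x, y, a, b, c⟩ := (hU n).1 p hp
    exact ⟨x, y, a, b, c.trans hn⟩
  · filter_upwards [(hU 0).2] with x hx
    rw [hx]
    constructor <;> linarith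

theorem goal (X : Type*) [NormedAddCommGroup X] [NormedSpace ℝ X]
    [TopologicalSpace.SeparableSpace X] : Goal X := by
  by_cases h : FiniteDimensional ℝ X
  · exact goal_finiteDim
  · exact goal_of_sym (exists_sym h)

end Pool.Agent.P.MP_ef1120_an
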